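import Pool.Agent.Helper30.UP.St

/-!
# Module M of project UP: the main inequality
-/

set_option autoImplicit false

noncomputable section

namespace Pool.Agent.Helper95.UP

open Finset Pool.Agent.Helper30.UP
open scoped Classical

theorem hM (hA2 : StA2) (hP : StPOS) (hC : StC10) (hD : StD2) : StM := by
  intro r hr
  have hK : 1 ≤ (2 * r) ^ r := Nat.one_le_pow _ _ (by omega)
  obtain ⟨K, hKdef⟩ : ∃ K : ℕ, K = (2 * r) ^ r := ⟨_, rfl⟩
  rw [← hKdef] at hK
  have hK' : (1 : ℝ) ≤ K := by exact_mod_cast hK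
  have hT : (1 : ℝ) ≤ 2 * (K : ℝ) ^ 2 := by nlinarith
  obtain ⟨nA, hnA⟩ := hA2 r hr
  obtain ⟨nP, hnP⟩ := hP K r hK hr
  obtain ⟨κ, nC, hκ, hnC⟩ := hC K (2 * (K : ℝ) ^ 2) hK hT
  obtain ⟨A, nD, hnD⟩ := hD K r κ hK hr
  obtain ⟨nE, hnE⟩ := exists_nat_gt (A * (r : ℝ) ^ r)
  have hr' : (0 : ℝ) < r := by exact_mod_cast hr
  refine ⟨κ, nA + nP + nC + nD + nE + K * (2 * K ^ 2), hκ.le, ?_⟩
  intro n hn c s hf hp hcard
  have hn0 : (0 : ℝ) ≤ n := Nat.cast_nonneg n
  have hnpos : 0 < n := by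
    have : 0 < K * (2 * K ^ 2) := by positivity
    omega
  have hnR : (0 : ℝ) < n := by exact_mod_cast hnpos
  have hmono : ((n : ℝ) / r) ^ r ≤ (((n : ℝ) + κ) / r) ^ r := by
    apply pow_le_pow_left₀ (by positivity)
    apply div_le_div_of_nonneg_right _ hr'.le
    linarith
  by_cases h : ((n : ℝ) / r) ^ r ≤ (2 : ℝ) ^ c
  · obtain ⟨D, hD1, hDn, hDw⟩ := hnA n (by omega) c s hf hcard h
    rw [← hKdef] at hDn
    have hpow : (n : ℝ) ^ r ≤ K * (2 : ℝ) ^ c := by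
      have h1 : (n : ℝ) ^ r ≤ (r : ℝ) ^ r * (2 : ℝ) ^ c := by
        rw [div_pow, div_le_iff₀ (by positivity)] at h
        linarith
      have h2 : (r : ℝ) ^ r ≤ K := by
        rw [hKdef]
        push_cast
        apply pow_le_pow_left₀ hr'.le
        linarith
      have h3 : (0 : ℝ) < (2 : ℝ) ^ c := by positivity
      nlinarith
    have hpos := hnP n (by omega) c D s hD1 hDn hDw hf hp hcard hpow
    have hTn : K * (2 * K ^ 2) ≤ n := by omega
    have hTD : 2 * K ^ 2 ≤ D := by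
      have : K * (2 * K ^ 2) ≤ K * D := hTn.trans hDn
      exact Nat.le_of_mul_le_mul_left this (by omega)
    have hTn' : 2 * K ^ 2 ≤ n := by
      calc 2 * K ^ 2 = 1 * (2 * K ^ 2) := by ring
        _ ≤ K * (2 * K ^ 2) := Nat.mul_le_mul_right _ hK
        _ ≤ n := hTn
    have hHyp : Hyp K (2 * (K : ℝ) ^ 2) D s := by
      refine ⟨hD1, hDn, hp, hDw, hpos, ?_, ?_⟩
      · exact_mod_cast hTn'
      · exact_mod_cast hTD
    obtain ⟨k, W, hk, hW, hFh⟩ := hnC n (by omega) c D s hHyp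
    have hwt : ∀ x, x ≠ 0 → n ≤ K * wt s x := by
      intro x hx
      have h1 : wt s x ≠ 0 := hf x hx
      have h2 : D ≤ wt s x := Nat.le_of_dvd (Nat.pos_of_ne_zero h1) (hDw x)
      exact hDn.trans (Nat.mul_le_mul_left _ h2)
    rcases hnD n (by omega) c k s W hk hW hFh hwt hcard with h1 | h1
    · exact h1
    · refine h1.trans (le_trans ?_ hmono)
      have h2 : A * (r : ℝ) ^ r ≤ n := by
        have : nE ≤ n := by omega
        have : (nE : ℝ) ≤ n := by exact_mod_cast this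
        linarith
      rw [div_pow, le_div_iff₀ (by positivity)]
      obtain ⟨q, rfl⟩ : ∃ q, r = q + 1 := ⟨r - 1, by omega⟩
      have h3 : (0 : ℝ) ≤ (n : ℝ) ^ q := by positivity
      have h4 : (n : ℝ) ^ (q + 1) = n * (n : ℝ) ^ q := by ring
      rw [h4, Nat.add_sub_cancel]
      calc A * (n : ℝ) ^ q * ((q + 1 : ℕ) : ℝ) ^ (q + 1)
          = (A * ((q + 1 : ℕ) : ℝ) ^ (q + 1)) * (n : ℝ) ^ q := by ring
        _ ≤ n * (n : ℝ) ^ q := mul_le_mul_of_nonneg_right h2 h3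
  · exact (not_le.mp h).le.trans hmono

end Pool.Agent.Helper95.UP
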